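import Pool.Agent.Lib.MP_5893d4_al.Main

set_option autoImplicit false

open scoped Pointwise
open Filter Topology

namespace Pool.Agent.Results.MP_5893d4_al.MetabelianMarkov

/-- `t` is a precompact Hausdorff group topology on `G`: a Hausdorff group topology such that for
every nonempty open set `U` there is a finite set `F` with `G = F U`. -/
structure IsPrecompactHausdorff (G : Type) [Group G] (t : TopologicalSpace G) : Prop where
  isTopologicalGroup : @IsTopologicalGroup G t _
  hausdorff : @T2Space G t
  precompact : ∀ U : Set G, IsOpen[t] U → U.Nonempty → ∃ F : Set G, F.Finite ∧ F * U = Set.univ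

/-- The precompact Markov topology `𝔓_G`: its open sets are the sets that are open in every
precompact Hausdorff group topology on `G` (in Mathlib the intersection of topologies is their
supremum, see `isOpen_precompactMarkov`). -/
@[reducible] def precompactMarkov (G : Type) [Group G] : TopologicalSpace G :=
  sSup {t | IsPrecompactHausdorff G t}

theorem isOpen_precompactMarkov (G : Type) [Group G] (U : Set G) :
    IsOpen[precompactMarkov G] U ↔ ∀ t, IsPrecompactHausdorff G t → IsOpen[t] U :=
  isOpen_sSup_iff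

/-- **Markov closures of one set need not be realized.** There is a countable metabelian group `G`
with a precompact Hausdorff group topology, and a single subset `E` of `G`, such that for every
precompact Hausdorff group topology on `G` the closure of `E` is strictly smaller than the closure
of `E` in the precompact Markov topology. -/
theorem result :
    ∃ (G : Type) (_ : Group G), Countable G ∧ (∀ a b c d : G, Commute (a * b * a⁻¹ * b⁻¹) (c * d * c⁻¹ * d⁻¹)) ∧
      (∃ t : TopologicalSpace G, IsPrecompactHausdorff G t) ∧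
      ∃ E : Set G, ∀ t : TopologicalSpace G, IsPrecompactHausdorff G t →
        @closure G t E ⊂ @closure G (precompactMarkov G) E := by
  have key : ∀ t : TopologicalSpace (Pool.Agent.Lib.MP_5893d4_al.Aff
      Pool.Agent.Lib.MP_5893d4_al.R57), IsPrecompactHausdorff _ t ↔
        Pool.Agent.Lib.MP_5893d4_al.PHG _ t := by
    intro t
    constructor
    · rintro ⟨h1, h2, h3⟩
      refine ⟨h1, h2, fun U hU => ?_⟩
      letI := t
      obtain ⟨F, hF, hFU⟩ := h3 (interior U) isOpen_interior
        ⟨1, mem_interior_iff_mem_nhds.2 hU⟩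
      refine ⟨hF.toFinset, ?_⟩
      rw [Set.Finite.coe_toFinset, Set.eq_univ_iff_forall]
      intro g
      have hg : g ∈ F * interior U := by rw [hFU]; trivial
      exact Set.mul_subset_mul_left interior_subset hg
    · rintro ⟨h1, h2, h3⟩
      refine ⟨h1, h2, fun U hU hne => ?_⟩
      letI := t
      haveI := h1
      obtain ⟨x, hx⟩ := hne
      have hV : (fun g => x * g) ⁻¹' U ∈ 𝓝 (1 : Pool.Agent.Lib.MP_5893d4_al.Aff
          Pool.Agent.Lib.MP_5893d4_al.R57) := by
        apply (continuous_const_mul x).continuousAt.preimage_mem_nhds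
        rw [mul_one]
        exact hU.mem_nhds hx
      obtain ⟨F, hF⟩ := h3 _ hV
      refine ⟨(fun f => f * x⁻¹) '' (F : Set _), F.finite_toSet.image _, ?_⟩
      rw [Set.eq_univ_iff_forall]
      intro g
      have hg : g ∈ (F : Set _) * ((fun g => x * g) ⁻¹' U) := by rw [hF]; trivial
      obtain ⟨f, hf, v, hv, rfl⟩ := Set.mem_mul.1 hg
      refine Set.mem_mul.2 ⟨f * x⁻¹, ⟨f, hf, rfl⟩, x * v, hv, by group⟩
  refine ⟨Pool.Agent.Lib.MP_5893d4_al.Aff Pool.Agent.Lib.MP_5893d4_al.R57, inferInstance,
    inferInstance, ?_, ⟨Pool.Agent.Lib.MP_5893d4_al.adicTop 5 Pool.Agent.Lib.MP_5893d4_al.h5,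
      (key _).2 (Pool.Agent.Lib.MP_5893d4_al.adicTop_PHG 5 Pool.Agent.Lib.MP_5893d4_al.h5)⟩,
    Pool.Agent.Lib.MP_5893d4_al.E, ?_⟩
  · intro a b c d
    have hu : ∀ x y : Pool.Agent.Lib.MP_5893d4_al.Aff Pool.Agent.Lib.MP_5893d4_al.R57,
        (x * y * x⁻¹ * y⁻¹).u = 1 := by
      intro x y
      simp [mul_comm x.u y.u]
    have hc : ∀ x y : Pool.Agent.Lib.MP_5893d4_al.Aff Pool.Agent.Lib.MP_5893d4_al.R57,
        x.u = 1 → y.u = 1 → x * y = y * x := by
      intro x y hx hy
      ext1
      · simp [hx, hy, add_comm]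
      · simp [hx, hy]
    exact hc _ _ (hu a b) (hu c d)
  · intro t ht
    have hle : ∀ s, IsPrecompactHausdorff _ s → @closure _ s Pool.Agent.Lib.MP_5893d4_al.E ⊆
        @closure _ (precompactMarkov _) Pool.Agent.Lib.MP_5893d4_al.E := by
      intro s hs
      have hc : IsClosed[precompactMarkov _] (@closure _ (precompactMarkov _)
          Pool.Agent.Lib.MP_5893d4_al.E) := @isClosed_closure _ (precompactMarkov _) _
      exact @closure_minimal _ s _ _ (@subset_closure _ (precompactMarkov _) _)
        (hc.mono (le_sSup (show s ∈ {t | IsPrecompactHausdorff _ t} from hs)))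
    refine ⟨hle t ht, fun hsub => ?_⟩
    refine Pool.Agent.Lib.MP_5893d4_al.no_top t ((key t).1 ht) (hsub ?_) (hsub ?_)
    · exact hle _ ((key _).2 (Pool.Agent.Lib.MP_5893d4_al.adicTop_PHG 5
        Pool.Agent.Lib.MP_5893d4_al.h5)) Pool.Agent.Lib.MP_5893d4_al.one_mem_closure5
    · exact hle _ ((key _).2 (Pool.Agent.Lib.MP_5893d4_al.adicTop_PHG 7
        Pool.Agent.Lib.MP_5893d4_al.h7)) Pool.Agent.Lib.MP_5893d4_al.one'_mem_closure7

end Pool.Agent.Results.MP_5893d4_al.MetabelianMarkov
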